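import Mathlib

set_option autoImplicit false

open MeasureTheory ProbabilityTheory Filter Topology Metric
open scoped ENNReal NNReal

namespace Pool.Agent.Results.MP_eb9ef7_pr.SelectionsConverge

/-- A random closed set: a map into the closed subsets of `E` which is Effros measurable. -/
structure IsRandomClosedSet {Ω E : Type*} [MeasurableSpace Ω] [TopologicalSpace E]
    (X : Ω → Set E) : Prop where
  isClosed : ∀ ω, IsClosed (X ω)
  effros : ∀ G : Set E, IsOpen G → MeasurableSet {ω | (X ω ∩ G).Nonempty}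

/-- A selection of `X`: a random element of `E` (a measurable map on the same probability space)
which lies in `X` almost surely. -/
structure IsSelection {Ω E : Type*} [MeasurableSpace Ω] [MeasurableSpace E]
    (P : Measure Ω) (X : Ω → Set E) (ξ : Ω → E) : Prop where
  measurable : Measurable ξ
  mem : ∀ᵐ ω ∂P, ξ ω ∈ X ω

/-! ### The index functions -/

lemma measurable_sInf_nat {α : Type*} [MeasurableSpace α] (p : α → ℕ → Prop)
    (hp : ∀ i, MeasurableSet {a | p a i}) : Measurable (fun a => sInf {i | p a i}) := by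
  classical
  refine measurable_to_countable' (fun n => ?_)
  have h : (fun a => sInf {i | p a i}) ⁻¹' {n} =
      ({a | p a n} ∩ ⋂ i ∈ Finset.range n, {a | p a i}ᶜ) ∪
        (if n = 0 then ⋂ i, {a | p a i}ᶜ else ∅) := by
    ext a
    simp only [Set.mem_preimage, Set.mem_singleton_iff, Set.mem_union, Set.mem_inter_iff,
      Set.mem_ofPred_eq, Set.mem_iInter, Finset.mem_range, Set.mem_compl_iff]
    constructor
    · intro h
      by_cases hne : {i | p a i}.Nonempty
      · left
        have h1 := Nat.sInf_mem hne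
        rw [h] at h1
        refine ⟨h1, fun i hi hpi => ?_⟩
        have h2 : sInf {i | p a i} ≤ i := Nat.sInf_le hpi
        omega
      · right
        rw [Set.not_nonempty_iff_eq_empty] at hne
        have hn : n = 0 := by rw [← h, hne]; simp
        rw [if_pos hn]
        simp only [Set.mem_iInter, Set.mem_compl_iff, Set.mem_ofPred_eq]
        intro i hi
        have : i ∈ {i | p a i} := hi
        rw [hne] at this
        exact this
    · rintro (⟨h1, h2⟩ | h)
      · refine le_antisymm (Nat.sInf_le h1) ?_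
        refine le_csInf ⟨n, h1⟩ (fun i hi => ?_)
        by_contra hlt
        exact h2 i (not_le.1 hlt) hi
      · split_ifs at h with hn
        · simp only [Set.mem_iInter, Set.mem_compl_iff, Set.mem_ofPred_eq] at h
          have : {i | p a i} = ∅ := Set.eq_empty_iff_forall_notMem.2 h
          rw [this, hn]; simp
        · exact absurd h (Set.notMem_empty a)
  rw [h]
  refine MeasurableSet.union ((hp n).inter (Finset.measurableSet_biInter _ fun i _ => (hp i).compl)) ?_
  split_ifs
  · exact MeasurableSet.iInter (fun i => (hp i).compl)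
  · exact MeasurableSet.empty

section Idx

variable {E : Type*} [MetricSpace E] (q : ℕ → E) (r : ℕ → ℝ)

/-- The index functions of the successive approximations of the selection. -/
noncomputable def idx (d : ℕ → ℝ≥0∞) : ℕ → ℕ
  | 0 => sInf {i | d i < ENNReal.ofReal (r 0)}
  | m + 1 => sInf {i | d i < ENNReal.ofReal (r (m + 1)) ∧
      dist (q i) (q (idx d m)) < r m + r (m + 1)}

lemma measurable_idx (m : ℕ) : Measurable (fun d : ℕ → ℝ≥0∞ => idx q r d m) := by
  induction m with
  | zero =>
    unfold idx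
    refine measurable_sInf_nat _ (fun i => ?_)
    exact measurableSet_lt (measurable_pi_apply i) measurable_const
  | succ m ih =>
    unfold idx
    refine measurable_sInf_nat _ (fun i => ?_)
    refine MeasurableSet.inter (measurableSet_lt (measurable_pi_apply i) measurable_const) ?_
    exact ih (MeasurableSet.of_discrete (s := {k : ℕ | dist (q i) (q k) < r m + r (m + 1)}))

/-- Distance vector of a set. -/
noncomputable def dv (F : Set E) : ℕ → ℝ≥0∞ := fun i => infEDist (q i) F

/-- All the levels are well defined. -/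
def Spec (d : ℕ → ℝ≥0∞) : Prop := ∀ m, d (idx q r d m) < ENNReal.ofReal (r m) ∧
  dist (q (idx q r d (m + 1))) (q (idx q r d m)) < r m + r (m + 1)

lemma spec_dv (hq : DenseRange q) (hr : ∀ m, 0 < r m) {F : Set E} (hF : F.Nonempty) :
    Spec q r (dv q F) := by
  have key0 : dv q F (idx q r (dv q F) 0) < ENNReal.ofReal (r 0) := by
    have hne : {i | dv q F i < ENNReal.ofReal (r 0)}.Nonempty := by
      obtain ⟨y, hy⟩ := hF
      obtain ⟨i, hi⟩ := hq.exists_dist_lt y (hr 0)
      refine ⟨i, ?_⟩
      refine lt_of_le_of_lt (infEDist_le_edist_of_mem hy) ?_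
      rw [edist_comm, edist_dist]
      exact (ENNReal.ofReal_lt_ofReal_iff (hr 0)).2 hi
    exact Nat.sInf_mem hne
  have step : ∀ m, dv q F (idx q r (dv q F) m) < ENNReal.ofReal (r m) →
      dv q F (idx q r (dv q F) (m + 1)) < ENNReal.ofReal (r (m + 1)) ∧
      dist (q (idx q r (dv q F) (m + 1))) (q (idx q r (dv q F) m)) < r m + r (m + 1) := by
    intro m hm
    have hne : {i | dv q F i < ENNReal.ofReal (r (m + 1)) ∧
      dist (q i) (q (idx q r (dv q F) m)) < r m + r (m + 1)}.Nonempty := by
      obtain ⟨y, hy, hy2⟩ := infEDist_lt_iff.1 hm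
      rw [edist_dist] at hy2
      have hy3 := (ENNReal.ofReal_lt_ofReal_iff (hr m)).1 hy2
      obtain ⟨i, hi⟩ := hq.exists_dist_lt y (hr (m + 1))
      refine ⟨i, ?_, ?_⟩
      · refine lt_of_le_of_lt (infEDist_le_edist_of_mem hy) ?_
        rw [edist_comm, edist_dist]
        exact (ENNReal.ofReal_lt_ofReal_iff (hr _)).2 hi
      · have h1 : dist (q i) y < r (m + 1) := by rw [dist_comm]; exact hi
        have h2 : dist y (q (idx q r (dv q F) m)) < r m := by rw [dist_comm]; exact hy3
        have h3 := dist_triangle (q i) y (q (idx q r (dv q F) m))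
        linarith
    exact Nat.sInf_mem hne
  have all : ∀ m, dv q F (idx q r (dv q F) m) < ENNReal.ofReal (r m) := by
    intro m
    induction m with
    | zero => exact key0
    | succ m ih => exact (step m ih).1
  exact fun m => ⟨all m, (step m (all m)).2⟩

/-- An open set of distance vectors on which the first indices are constant. -/
def V (m : ℕ) (d : ℕ → ℝ≥0∞) : Set (ℕ → ℝ≥0∞) :=
  ⋂ l ∈ Finset.range (m + 1), ⋂ i ∈ Finset.range (idx q r d l + 1),
    {d' | (d i < ENNReal.ofReal (r l) → d' i < ENNReal.ofReal (r l)) ∧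
      (ENNReal.ofReal (r l) ≤ d i → ENNReal.ofReal (r l) < d' i)}

lemma isOpen_V (m : ℕ) (d : ℕ → ℝ≥0∞) : IsOpen (V q r m d) := by
  unfold V
  refine isOpen_biInter_finset (fun l _ => isOpen_biInter_finset (fun i _ => ?_))
  by_cases h : d i < ENNReal.ofReal (r l)
  · have : {d' : ℕ → ℝ≥0∞ | (d i < ENNReal.ofReal (r l) → d' i < ENNReal.ofReal (r l)) ∧
      (ENNReal.ofReal (r l) ≤ d i → ENNReal.ofReal (r l) < d' i)} =
      {d' | d' i < ENNReal.ofReal (r l)} := by
      ext d'
      simp only [Set.mem_ofPred_eq]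
      exact ⟨fun h' => h'.1 h, fun h' => ⟨fun _ => h', fun h'' => absurd h (not_lt.2 h'')⟩⟩
    rw [this]
    exact isOpen_lt (continuous_apply i) continuous_const
  · have : {d' : ℕ → ℝ≥0∞ | (d i < ENNReal.ofReal (r l) → d' i < ENNReal.ofReal (r l)) ∧
      (ENNReal.ofReal (r l) ≤ d i → ENNReal.ofReal (r l) < d' i)} =
      {d' | ENNReal.ofReal (r l) < d' i} := by
      ext d'
      simp only [Set.mem_ofPred_eq]
      exact ⟨fun h' => h'.2 (not_lt.1 h), fun h' => ⟨fun h'' => absurd h'' h, fun _ => h'⟩⟩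
    rw [this]
    exact isOpen_lt continuous_const (continuous_apply i)

lemma mem_V_self {d : ℕ → ℝ≥0∞} (hgen : ∀ i m, d i ≠ ENNReal.ofReal (r m)) (m : ℕ) :
    d ∈ V q r m d := by
  unfold V
  simp only [Set.mem_iInter, Set.mem_ofPred_eq]
  intro l _ i _
  exact ⟨fun h => h, fun h => lt_of_le_of_ne h (Ne.symm (hgen i l))⟩

lemma sInf_eq {p : ℕ → Prop} {n : ℕ} (h1 : p n) (h2 : ∀ i, i < n → ¬ p i) : sInf {i | p i} = n := by
  refine le_antisymm (Nat.sInf_le h1) ?_
  refine le_csInf ⟨n, h1⟩ (fun i hi => ?_)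
  by_contra hlt
  exact h2 i (not_le.1 hlt) hi

lemma idx_eq_of_mem_V {d d' : ℕ → ℝ≥0∞} (hd : Spec q r d) {m : ℕ} (h : d' ∈ V q r m d) :
    ∀ l, l ≤ m → idx q r d' l = idx q r d l := by
  unfold V at h
  simp only [Set.mem_iInter, Set.mem_ofPred_eq, Finset.mem_range] at h
  intro l
  induction l with
  | zero =>
    intro _
    have h0 : idx q r d 0 = sInf {i | d i < ENNReal.ofReal (r 0)} := by rw [idx]
    have h0' : idx q r d' 0 = sInf {i | d' i < ENNReal.ofReal (r 0)} := by rw [idx]
    rw [h0']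
    apply sInf_eq
    · exact (h 0 (by omega) _ (by omega)).1 (hd 0).1
    · intro i hi hlt
      have h1 := (h 0 (by omega) i (by omega)).2
      by_cases h2 : d i < ENNReal.ofReal (r 0)
      · have h3 : idx q r d 0 ≤ i := by rw [h0]; exact Nat.sInf_le h2
        omega
      · exact absurd hlt (not_lt.2 (h1 (not_lt.1 h2)).le)
  | succ l ih =>
    intro hl
    have ih' := ih (by omega)
    have h0 : idx q r d (l + 1) = sInf {i | d i < ENNReal.ofReal (r (l + 1)) ∧
      dist (q i) (q (idx q r d l)) < r l + r (l + 1)} := by rw [idx]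
    have h0' : idx q r d' (l + 1) = sInf {i | d' i < ENNReal.ofReal (r (l + 1)) ∧
      dist (q i) (q (idx q r d' l)) < r l + r (l + 1)} := by rw [idx]
    rw [h0', ih']
    apply sInf_eq
    · exact ⟨(h (l + 1) (by omega) _ (by omega)).1 (hd (l + 1)).1, (hd l).2⟩
    · rintro i hi ⟨hlt, hdist⟩
      have h1 := (h (l + 1) (by omega) i (by omega)).2
      by_cases h2 : d i < ENNReal.ofReal (r (l + 1))
      · have h3 : idx q r d (l + 1) ≤ i := by rw [h0]; exact Nat.sInf_le ⟨h2, hdist⟩
        omega
      · exact absurd hlt (not_lt.2 (h1 (not_lt.1 h2)).le)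

/-! ### The limiting selection -/

variable [CompleteSpace E]

omit [CompleteSpace E] in
lemma cauchy_of_spec (hr2 : ∀ m, r m ≤ (1 / 2) ^ m) {d : ℕ → ℝ≥0∞} (hd : Spec q r d) (m : ℕ) :
    dist (q (idx q r d m)) (q (idx q r d (m + 1))) ≤ 2 * (1 / 2) ^ m := by
  rw [dist_comm]
  have h1 := (hd m).2
  have h2 := hr2 m
  have h3 := hr2 (m + 1)
  have h4 : (1 / 2 : ℝ) ^ (m + 1) ≤ (1 / 2) ^ m :=
    pow_le_pow_of_le_one (by norm_num) (by norm_num) (Nat.le_succ m)
  linarith

/-- The selection map. -/
noncomputable def sel [Nonempty E] (d : ℕ → ℝ≥0∞) : E := limUnder atTop (fun m => q (idx q r d m))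

lemma tendsto_sel [Nonempty E] (hr2 : ∀ m, r m ≤ (1 / 2) ^ m) {d : ℕ → ℝ≥0∞} (hd : Spec q r d) :
    Tendsto (fun m => q (idx q r d m)) atTop (𝓝 (sel q r d)) := by
  have h : CauchySeq (fun m => q (idx q r d m)) :=
    cauchySeq_of_le_geometric (1 / 2) 2 (by norm_num) (fun m => cauchy_of_spec q r hr2 hd m)
  exact h.tendsto_limUnder

lemma dist_sel_le [Nonempty E] (hr2 : ∀ m, r m ≤ (1 / 2) ^ m) {d : ℕ → ℝ≥0∞} (hd : Spec q r d)
    (m : ℕ) : dist (q (idx q r d m)) (sel q r d) ≤ 4 * (1 / 2) ^ m := by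
  have h := dist_le_of_le_geometric_of_tendsto (1 / 2) 2 (by norm_num)
    (fun m => cauchy_of_spec q r hr2 hd m) (tendsto_sel q r hr2 hd) m
  refine h.trans (le_of_eq ?_)
  ring

lemma sel_mem [Nonempty E] (hq : DenseRange q) (hr : ∀ m, 0 < r m) (hr2 : ∀ m, r m ≤ (1 / 2) ^ m)
    {F : Set E} (hF : F.Nonempty) (hFc : IsClosed F) : sel q r (dv q F) ∈ F := by
  have hs := spec_dv q r hq hr hF
  rw [mem_iff_infEDist_zero_of_closed hFc]
  have h1 : Tendsto (fun m => infEDist (q (idx q r (dv q F) m)) F) atTop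
      (𝓝 (infEDist (sel q r (dv q F)) F)) :=
    (continuous_infEDist.tendsto _).comp (tendsto_sel q r hr2 hs)
  have h2 : Tendsto (fun m => infEDist (q (idx q r (dv q F) m)) F) atTop (𝓝 0) := by
    have h3 : Tendsto (fun m : ℕ => ENNReal.ofReal ((1 / 2) ^ m)) atTop (𝓝 0) := by
      rw [← ENNReal.ofReal_zero]
      exact (ENNReal.continuous_ofReal.tendsto 0).comp
        (tendsto_pow_atTop_nhds_zero_of_lt_one (by norm_num) (by norm_num))
    refine tendsto_of_tendsto_of_tendsto_of_le_of_le tendsto_const_nhds h3 (fun m => zero_le)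
      (fun m => ?_)
    exact ((hs m).1.le).trans (ENNReal.ofReal_le_ofReal (hr2 m))
  exact tendsto_nhds_unique h1 h2

end Idx

section RandomSets

variable {Ω E : Type*} [MeasurableSpace Ω] [MetricSpace E]

lemma measurable_infEDist_random {X : Ω → Set E} (hX : IsRandomClosedSet X) (x : E) :
    Measurable (fun ω => infEDist x (X ω)) := by
  refine measurable_of_Iio (fun c => ?_)
  have h : (fun ω => infEDist x (X ω)) ⁻¹' (Set.Iio c) = {ω | (X ω ∩ eball x c).Nonempty} := by
    ext ω
    simp only [Set.mem_preimage, Set.mem_Iio, Set.mem_ofPred_eq, infEDist_lt_iff]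
    constructor
    · rintro ⟨y, hy, hxy⟩
      exact ⟨y, hy, by rw [mem_eball, edist_comm]; exact hxy⟩
    · rintro ⟨y, hy, hxy⟩
      exact ⟨y, hy, by rw [mem_eball, edist_comm] at hxy; exact hxy⟩
  rw [h]
  exact hX.effros _ isOpen_eball

lemma measurable_dv (q : ℕ → E) {X : Ω → Set E} (hX : IsRandomClosedSet X) :
    Measurable (fun ω => dv q (X ω)) :=
  measurable_pi_iff.2 (fun i => measurable_infEDist_random hX (q i))

lemma measurableSet_nonempty {X : Ω → Set E} (hX : IsRandomClosedSet X) :
    MeasurableSet {ω | (X ω).Nonempty} := by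
  have := hX.effros Set.univ isOpen_univ
  simpa using this

variable [CompleteSpace E] [MeasurableSpace E] [BorelSpace E]

open Classical in
/-- The selection of a random closed set. -/
noncomputable def rsel [Nonempty E] (q : ℕ → E) (r : ℕ → ℝ) (X : Ω → Set E) (ω : Ω) : E :=
  if (X ω).Nonempty then sel q r (dv q (X ω)) else q 0

lemma measurable_rsel [Nonempty E] {q : ℕ → E} {r : ℕ → ℝ} (hq : DenseRange q)
    (hr : ∀ m, 0 < r m) (hr2 : ∀ m, r m ≤ (1 / 2) ^ m) {X : Ω → Set E}
    (hX : IsRandomClosedSet X) : Measurable (rsel q r X) := by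
  classical
  refine measurable_of_tendsto_metrizable
    (f := fun m ω => if (X ω).Nonempty then q (idx q r (dv q (X ω)) m) else q 0) (fun m => ?_) ?_
  · refine Measurable.ite (measurableSet_nonempty hX) ?_ measurable_const
    exact (measurable_from_nat).comp ((measurable_idx q r m).comp (measurable_dv q hX))
  · rw [tendsto_pi_nhds]
    intro ω
    unfold rsel
    split_ifs with h
    · exact tendsto_sel q r hr2 (spec_dv q r hq hr h)
    · exact tendsto_const_nhds

end RandomSets

/-! ### From finite dimensional to weak convergence in the sequence space -/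

/-- The first `k` coordinates of a sequence. -/
def proj (k : ℕ) (z : ℕ → ℝ≥0∞) : Fin k → ℝ≥0∞ := fun i => z i

lemma measurable_proj (k : ℕ) : Measurable (proj k) :=
  measurable_pi_iff.2 (fun _ => measurable_pi_apply _)

lemma continuous_proj (k : ℕ) : Continuous (proj k) :=
  continuous_pi (fun _ => continuous_apply _)

lemma tendsto_of_fdd (u : ℕ → ProbabilityMeasure (ℕ → ℝ≥0∞)) (π : ProbabilityMeasure (ℕ → ℝ≥0∞))
    (h : ∀ k : ℕ, 1 ≤ k →
      Tendsto (fun n => (u n).map (f := proj k) (measurable_proj k).aemeasurable) atTop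
      (𝓝 (π.map (f := proj k) (measurable_proj k).aemeasurable))) :
    Tendsto u atTop (𝓝 π) := by
  refine le_nhds_of_unique_clusterPt (fun ρ hρ => ?_)
  have hρ' : MapClusterPt ρ atTop u := hρ
  rw [mapClusterPt_iff_ultrafilter] at hρ'
  obtain ⟨U, hU, hUρ⟩ := hρ'
  have key : ∀ k : ℕ, 1 ≤ k → (ρ : Measure (ℕ → ℝ≥0∞)).map (proj k) =
      (π : Measure (ℕ → ℝ≥0∞)).map (proj k) := by
    intro k hk
    have h1 := ProbabilityMeasure.tendsto_map_of_tendsto_of_continuous _ _ hUρ (continuous_proj k)
    have h2 := (h k hk).mono_left hU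
    have h3 := tendsto_nhds_unique h1 h2
    exact congrArg (fun m : ProbabilityMeasure (Fin k → ℝ≥0∞) => (m : Measure (Fin k → ℝ≥0∞))) h3
  apply ProbabilityMeasure.toMeasure_injective
  refine ext_of_generate_finite (measurableCylinders (fun _ : ℕ => ℝ≥0∞))
    (generateFrom_measurableCylinders).symm isPiSystem_measurableCylinders (fun S hS => ?_) (by simp)
  obtain ⟨s, T, hT, rfl⟩ := (mem_measurableCylinders S).1 hS
  obtain ⟨k, hk1, hk⟩ : ∃ k, 1 ≤ k ∧ ∀ i ∈ s, i < k := ⟨s.sup id + 1, by omega, fun i hi =>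
    Nat.lt_succ_of_le (Finset.le_sup (f := id) hi)⟩
  let g : (Fin k → ℝ≥0∞) → (s → ℝ≥0∞) := fun z j => z ⟨j.1, hk j.1 j.2⟩
  have hg : Measurable g := measurable_pi_iff.2 (fun j => measurable_pi_apply _)
  have hcyl : cylinder s T = (proj k) ⁻¹' (g ⁻¹' T) := by
    ext z
    rfl
  rw [hcyl, ← Measure.map_apply (measurable_proj k) (hg hT),
    ← Measure.map_apply (measurable_proj k) (hg hT), key k hk1]

/-! ### Choice of generic radii -/

lemma exists_radii {Ω E : Type*} [MeasurableSpace Ω] [MetricSpace E] (P : Measure Ω)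
    [IsProbabilityMeasure P] (q : ℕ → E) {X : Ω → Set E} (hX : IsRandomClosedSet X) :
    ∃ r : ℕ → ℝ, (∀ m, 0 < r m) ∧ (∀ m, r m ≤ (1 / 2) ^ m) ∧
      ∀ᵐ ω ∂P, ∀ i m, dv q (X ω) i ≠ ENNReal.ofReal (r m) := by
  have hc : ∀ i, {t : ℝ | 0 < P {ω | (dv q (X ω) i).toReal = t}}.Countable := fun i =>
    Measure.countable_meas_level_set_pos
      ((measurable_infEDist_random hX (q i)).ennreal_toReal)
  have hC : (⋃ i, {t : ℝ | 0 < P {ω | (dv q (X ω) i).toReal = t}}).Countable :=
    Set.countable_iUnion hc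
  have hex : ∀ m : ℕ, ∃ t : ℝ, 0 < t ∧ t ≤ (1 / 2) ^ m ∧
      ∀ i, P {ω | (dv q (X ω) i).toReal = t} = 0 := by
    intro m
    have hd := hC.dense_compl ℝ
    obtain ⟨t, ht1, ht2⟩ := hd.exists_between (show (0 : ℝ) < (1 / 2) ^ m by positivity)
    refine ⟨t, ht2.1, ht2.2.le, fun i => ?_⟩
    by_contra hne
    apply ht1
    simp only [Set.mem_iUnion, Set.mem_ofPred_eq]
    exact ⟨i, pos_iff_ne_zero.2 hne⟩
  choose r hr1 hr2 hr3 using hex
  refine ⟨r, hr1, hr2, ?_⟩
  rw [ae_all_iff]
  intro i
  rw [ae_all_iff]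
  intro m
  rw [ae_iff]
  refine measure_mono_null (fun ω hω => ?_) (hr3 m i)
  simp only [ne_eq, not_not, Set.mem_ofPred_eq] at hω ⊢
  rw [hω, ENNReal.toReal_ofReal (hr1 m).le]

/-- **Full answer to Q1 (positive).** Let `E` be a complete separable metric space (in particular a
separable Banach space), `X' n` almost surely non-empty random closed sets on probability spaces
`(Ω' n, P' n)`, and `X` an almost surely non-empty random closed set on `(Ω, P)`. If
`(ρ(x₁, X' n), …, ρ(x_k, X' n))` converges in distribution to `(ρ(x₁, X), …, ρ(x_k, X))` for all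
`x₁, …, x_k ∈ E`, then there are selections `ξ' n` of `X' n` and `ξ` of `X` such that `ξ' n`
converges in distribution to `ξ`. -/
theorem result {E : Type*} [MetricSpace E] [CompleteSpace E] [TopologicalSpace.SeparableSpace E]
    [MeasurableSpace E] [BorelSpace E]
    {Ω' : ℕ → Type*} [∀ n, MeasurableSpace (Ω' n)] (P' : ∀ n, Measure (Ω' n))
    [∀ n, IsProbabilityMeasure (P' n)]
    {Ω : Type*} [MeasurableSpace Ω] (P : Measure Ω) [IsProbabilityMeasure P]
    (X' : ∀ n, Ω' n → Set E) (X : Ω → Set E)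
    (hX' : ∀ n, IsRandomClosedSet (X' n)) (hX : IsRandomClosedSet X)
    (hne' : ∀ n, ∀ᵐ ω ∂(P' n), (X' n ω).Nonempty) (hne : ∀ᵐ ω ∂P, (X ω).Nonempty)
    (hconv : ∀ k : ℕ, 1 ≤ k → ∀ x : Fin k → E,
      TendstoInDistribution (fun n ω (i : Fin k) => infEDist (x i) (X' n ω)) atTop
        (fun ω (i : Fin k) => infEDist (x i) (X ω)) P' P) :
    ∃ (ξ' : ∀ n, Ω' n → E) (ξ : Ω → E),
      (∀ n, IsSelection (P' n) (X' n) (ξ' n)) ∧ IsSelection P X ξ ∧
      TendstoInDistribution ξ' atTop ξ P' P := by
  classical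
  -- `E` is non-empty
  have hE : Nonempty E := by
    obtain ⟨ω, hω⟩ := hne.exists
    exact ⟨hω.some⟩
  let q : ℕ → E := TopologicalSpace.denseSeq E
  have hq : DenseRange q := TopologicalSpace.denseRange_denseSeq E
  obtain ⟨r, hr, hr2, hgen⟩ := exists_radii P q hX
  have hmξ' : ∀ n, Measurable (rsel q r (X' n)) := fun n => measurable_rsel hq hr hr2 (hX' n)
  have hmξ : Measurable (rsel q r X) := measurable_rsel hq hr hr2 hX
  refine ⟨fun n => rsel q r (X' n), rsel q r X, fun n => ⟨hmξ' n, ?_⟩, ⟨hmξ, ?_⟩, ?_⟩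
  · filter_upwards [hne' n] with ω hω
    unfold rsel
    rw [if_pos hω]
    exact sel_mem q r hq hr hr2 hω ((hX' n).isClosed ω)
  · filter_upwards [hne] with ω hω
    unfold rsel
    rw [if_pos hω]
    exact sel_mem q r hq hr hr2 hω (hX.isClosed ω)
  · -- laws of the distance vectors
    have hmD' : ∀ n, Measurable (fun ω => dv q (X' n ω)) := fun n => measurable_dv q (hX' n)
    have hmD : Measurable (fun ω => dv q (X ω)) := measurable_dv q hX
    let u : ℕ → ProbabilityMeasure (ℕ → ℝ≥0∞) := fun n =>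
      ⟨(P' n).map (fun ω => dv q (X' n ω)), Measure.isProbabilityMeasure_map (hmD' n).aemeasurable⟩
    let π : ProbabilityMeasure (ℕ → ℝ≥0∞) :=
      ⟨P.map (fun ω => dv q (X ω)), Measure.isProbabilityMeasure_map hmD.aemeasurable⟩
    have hu : Tendsto u atTop (𝓝 π) := by
      apply tendsto_of_fdd
      intro k hk
      have h1 := (hconv k hk (fun i => q i)).tendsto
      have e1 : ∀ n, (u n).map (f := proj k) (measurable_proj k).aemeasurable =
          ⟨(P' n).map (fun ω (i : Fin k) => infEDist (q i) (X' n ω)),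
            Measure.isProbabilityMeasure_map ((hconv k hk (fun i => q i)).forall_aemeasurable n)⟩ := by
        intro n
        apply ProbabilityMeasure.toMeasure_injective
        change ((P' n).map (fun ω => dv q (X' n ω))).map (proj k) = _
        rw [Measure.map_map (measurable_proj k) (hmD' n)]
        rfl
      have e2 : π.map (f := proj k) (measurable_proj k).aemeasurable =
          ⟨P.map (fun ω (i : Fin k) => infEDist (q i) (X ω)),
            Measure.isProbabilityMeasure_map (hconv k hk (fun i => q i)).aemeasurable_limit⟩ := by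
        apply ProbabilityMeasure.toMeasure_injective
        change (P.map (fun ω => dv q (X ω))).map (proj k) = _
        rw [Measure.map_map (measurable_proj k) hmD]
        rfl
      rw [e2]
      exact h1.congr (fun n => (e1 n).symm)
    refine ⟨fun n => (hmξ' n).aemeasurable, hmξ.aemeasurable, ?_⟩
    apply tendsto_of_forall_isOpen_le_liminf'
    intro G hG
    change (P.map (rsel q r X)) G ≤ liminf (fun n => ((P' n).map (rsel q r (X' n))) G) atTop
    -- the open set of distance vectors
    let O : Set (ℕ → ℝ≥0∞) := ⋃ (m : ℕ), ⋃ (d : ℕ → ℝ≥0∞), ⋃ (_ : Spec q r d ∧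
      closedBall (q (idx q r d m)) (4 * (1 / 2) ^ m) ⊆ G), V q r m d
    have hO : IsOpen O := isOpen_iUnion fun m => isOpen_iUnion fun d => isOpen_iUnion fun _ =>
      isOpen_V q r m d
    have hlow : (P.map (rsel q r X)) G ≤ (π : Measure (ℕ → ℝ≥0∞)) O := by
      change _ ≤ (P.map (fun ω => dv q (X ω))) O
      rw [Measure.map_apply hmξ hG.measurableSet, Measure.map_apply hmD hO.measurableSet]
      apply measure_mono_ae
      filter_upwards [hne, hgen] with ω hω hg hωG
      have hωG' : rsel q r X ω ∈ G := hωG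
      unfold rsel at hωG'
      rw [if_pos hω] at hωG'
      have hs := spec_dv q r hq hr hω
      obtain ⟨ε, hε, hball⟩ := Metric.isOpen_iff.1 hG _ hωG'
      have h3 : Tendsto (fun m : ℕ => 8 * (1 / 2 : ℝ) ^ m) atTop (𝓝 0) := by
        have := (tendsto_pow_atTop_nhds_zero_of_lt_one (show (0:ℝ) ≤ 1/2 by norm_num)
          (by norm_num)).const_mul 8
        simpa using this
      obtain ⟨m, hm⟩ := (h3.eventually_lt_const hε).exists
      change dv q (X ω) ∈ O
      simp only [O, Set.mem_iUnion]
      refine ⟨m, dv q (X ω), ⟨hs, ?_⟩, mem_V_self q r hg m⟩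
      intro y hy
      apply hball
      rw [mem_ball]
      have h4 := dist_sel_le q r hr2 hs m
      have h5 := mem_closedBall.1 hy
      have h6 := dist_triangle y (q (idx q r (dv q (X ω)) m)) (sel q r (dv q (X ω)))
      linarith
    have hup : ∀ n, (u n : Measure (ℕ → ℝ≥0∞)) O ≤ ((P' n).map (rsel q r (X' n))) G := by
      intro n
      change ((P' n).map (fun ω => dv q (X' n ω))) O ≤ _
      rw [Measure.map_apply (hmξ' n) hG.measurableSet, Measure.map_apply (hmD' n) hO.measurableSet]
      apply measure_mono_ae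
      filter_upwards [hne' n] with ω hω hωO
      have hωO' : dv q (X' n ω) ∈ O := hωO
      simp only [O, Set.mem_iUnion] at hωO'
      obtain ⟨m, d, ⟨hd, hball⟩, hV⟩ := hωO'
      have h1 := idx_eq_of_mem_V q r hd hV m le_rfl
      have hs := spec_dv q r hq hr hω
      have h2 := dist_sel_le q r hr2 hs m
      change rsel q r (X' n) ω ∈ G
      unfold rsel
      rw [if_pos hω]
      apply hball
      rw [mem_closedBall, ← h1, dist_comm]
      exact h2
    calc (P.map (rsel q r X)) G ≤ (π : Measure (ℕ → ℝ≥0∞)) O := hlow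
      _ ≤ liminf (fun n => (u n : Measure (ℕ → ℝ≥0∞)) O) atTop :=
          ProbabilityMeasure.le_liminf_measure_open_of_tendsto hu hO
      _ ≤ liminf (fun n => ((P' n).map (rsel q r (X' n))) G) atTop :=
          liminf_le_liminf (Eventually.of_forall hup)

end Pool.Agent.Results.MP_eb9ef7_pr.SelectionsConverge
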